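import Pool.Agent.H514.Li.GX6

/-!
# Li coefficients of the high derivatives of L-functions of elliptic curves

`E : y² = x³ + a x + b` is an elliptic curve over `ℚ` of conductor `N` and `Λ` its completed L-function.
By Li's criterion (Bombieri and Lagarias) the Riemann hypothesis for `E` holds if and only if all the numbers
`λ_k(Λ) = ∑_ρ (1 - (1 - 1/(ρ - 1/2))^k)`, `k ≥ 1`, are non-negative (`ρ` runs over the zeros of `Λ`; the line is
`Re s = 1`), and it implies that `λ_k(Λ^(n)) ≥ 0` for all `k` and all derivatives `Λ^(n)`.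

We prove unconditionally: there is an absolute constant `κ > 0` such that for every `E`, all `n ≥ n₀(E)` and
all `1 ≤ k ≤ e^(κ n)` the series of `λ_k(Λ^(n))` converges absolutely and
`λ_k(Λ^(n)) ≥ c_E k² log (k + n) / (k + n)` with `c_E > 0`.
-/

set_option autoImplicit false

open Complex UpperHalfPlane MatrixGroups CongruenceSubgroup

namespace Pool.Agent.Results.MP_553913_nt.LiCoefficientsOfDerivatives

/-- The coefficient `a_p` of `E : y² = x³ + a x + b` at a prime `p ∤ 2 (4a³ + 27b²)`: `p` minus the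
number of pairs `(x, y)` modulo `p` with `y² ≡ x³ + a x + b (mod p)`. -/
noncomputable def ap (a b : ℤ) (p : ℕ) : ℤ :=
  (p : ℤ) - (((Finset.range p ×ˢ Finset.range p).filter
    (fun xy : ℕ × ℕ => (p : ℤ) ∣ (xy.2 : ℤ) ^ 2 -
      ((xy.1 : ℤ) ^ 3 + a * (xy.1 : ℤ) + b))).card : ℤ)

/-- The `n`-th Fourier coefficient of `f`. -/
noncomputable def coef {N : ℕ} (f : CuspForm (Gamma0 N : Subgroup (GL (Fin 2) ℝ)) 2) (n : ℕ) : ℂ :=
  (qExpansion 1 f).coeff n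

/-- `f ∈ S_2(Γ₀(N))` is the newform of the elliptic curve `E : y² = x³ + a x + b` of conductor `N` and
root number `w`: the Fourier coefficients `c(n)` of `f` are real with `c(1) = 1`, they satisfy the
Hecke relations `c(mn) = c(m) c(n)` for coprime `m`, `n` and `c(p^(j+2)) = c(p) c(p^(j+1)) - p c(p^j)`
(without the last term if `p ∣ N`), `f(-1/(Nτ)) = -w N τ² f(τ)`, `c(p) = a_p(E)` for all primes
`p ∤ 2 (4a³ + 27b²)`, `|c(p)| ≤ 2 √p` for all `p ∤ N` (Hasse) and `c(p) = 0, 1, -1` for `p ∣ N`. -/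
structure IsFormOf (a b : ℤ) (N : ℕ) (f : CuspForm (Gamma0 N : Subgroup (GL (Fin 2) ℝ)) 2) (w : ℝ) :
    Prop where
  one : coef f 1 = 1
  real : ∀ n, (coef f n).im = 0
  mul : ∀ m n : ℕ, Nat.Coprime m n → coef f (m * n) = coef f m * coef f n
  pow : ∀ p j : ℕ, p.Prime → coef f (p ^ (j + 2)) = coef f p * coef f (p ^ (j + 1)) -
      (if p ∣ N then 0 else (p : ℂ) * coef f (p ^ j))
  sign : w = 1 ∨ w = -1
  fricke : ∀ τ τ' : ℍ, (τ' : ℂ) * ((N : ℂ) * (τ : ℂ)) = -1 →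
    f τ' = -(w : ℂ) * (N : ℂ) * (τ : ℂ) ^ 2 * f τ
  points : ∀ p : ℕ, p.Prime → ¬ (p : ℤ) ∣ 2 * (4 * a ^ 3 + 27 * b ^ 2) → coef f p = (ap a b p : ℂ)
  good : ∀ p : ℕ, p.Prime → ¬ p ∣ N → ‖coef f p‖ ≤ 2 * Real.sqrt p
  bad : ∀ p : ℕ, p.Prime → p ∣ N → coef f p = 0 ∨ coef f p = 1 ∨ coef f p = -1

/-- `Λ` is the completed L-function of `f`: it is entire and
`Λ(s) = N^(s/2) (2π)^(-s) Γ(s) ∑ c(n) n^(-s)` for `Re s > 2`. -/
def IsCompleted {N : ℕ} (f : CuspForm (Gamma0 N : Subgroup (GL (Fin 2) ℝ)) 2) (Λ : ℂ → ℂ) : Prop :=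
  Differentiable ℂ Λ ∧ ∀ s : ℂ, 2 < s.re →
    Λ s = ((Real.sqrt N / (2 * Real.pi) : ℝ) : ℂ) ^ s * Complex.Gamma s *
      ∑' n : ℕ, coef f (n + 1) * ((n + 1 : ℕ) : ℂ) ^ (-s)

/-- The contribution `m(ρ) Re (1 - (1 - 1/(ρ - 1/2))^k)` of a zero `ρ` of `F`, of multiplicity `m(ρ)`,
to the `k`-th Li coefficient of `F` (for the critical line `Re s = 1`). -/
noncomputable def liTerm (F : ℂ → ℂ) (k : ℕ) (ρ : ℂ) : ℝ :=
  (analyticOrderNatAt F ρ : ℝ) * (1 - (1 - 1 / (ρ - 1 / 2)) ^ k).re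

/-- The `k`-th Li coefficient `λ_k(F)`: the sum of `liTerm F k` over the distinct zeros of `F`. -/
noncomputable def li (F : ℂ → ℂ) (k : ℕ) : ℝ := ∑' ρ : {ρ : ℂ // F ρ = 0}, liTerm F k ρ

/-- **Main theorem.** There is an absolute constant `κ > 0` such that the following holds for every elliptic
curve `E : y² = x³ + a x + b` over `ℚ`, with completed L-function `Λ`. There are `c > 0` and `n₀` such that for all
`n ≥ n₀` and all `1 ≤ k ≤ e^(κ n)` the series of the `k`-th Li coefficient `λ_k(Λ^(n))` of the `n`-th derivative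
converges absolutely and `λ_k(Λ^(n)) ≥ c k² log (k + n) / (k + n)`. -/
theorem result : ∃ κ : ℝ, 0 < κ ∧ ∀ (a b : ℤ) (N : ℕ) [NeZero N]
    (f : CuspForm (Gamma0 N : Subgroup (GL (Fin 2) ℝ)) 2) (w : ℝ),
    4 * a ^ 3 + 27 * b ^ 2 ≠ 0 → IsFormOf a b N f w →
    ∃ Λ : ℂ → ℂ, IsCompleted f Λ ∧ (∀ Λ', IsCompleted f Λ' → Λ' = Λ) ∧
      (∀ s : ℂ, Λ (2 - s) = (w : ℂ) * Λ s) ∧
      ∃ c : ℝ, 0 < c ∧ ∃ n0 : ℕ, ∀ n : ℕ, n0 ≤ n →
        ∀ k : ℕ, 1 ≤ k → (k : ℝ) ≤ Real.exp (κ * n) →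
        (Summable fun ρ : {ρ : ℂ // iteratedDeriv n Λ ρ = 0} => liTerm (iteratedDeriv n Λ) k ρ) ∧
        c * (k : ℝ) ^ 2 * Real.log ((k : ℝ) + n) / ((k : ℝ) + n) ≤ li (iteratedDeriv n Λ) k := by
  obtain ⟨κ, hκ, hall⟩ := Pool.Agent.H514.Li.li_ec
  refine ⟨κ, hκ, fun a b N _ f w _ hf => ?_⟩
  have hf' : Pool.Agent.W169.HF.IsForm N f w :=
    { one := hf.one
      real := hf.real
      mul := hf.mul
      pow := hf.pow
      sign := hf.sign
      fricke := hf.fricke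
      good := hf.good
      bad := fun p hp hpN => by
        have h1 : (1 : ℝ) ≤ Real.sqrt p := by
          rw [Real.one_le_sqrt]
          exact_mod_cast hp.one_le
        have h2 : ‖coef f p‖ ≤ 1 := by
          rcases hf.bad p hp hpN with h | h | h <;> simp [h]
        exact h2.trans h1 }
  obtain ⟨Λ, hΛ, hfe, -, -⟩ := Pool.Agent.W174.HF.nf1 N f w hf'
  have h := hall N f w hf' Λ hΛ hfe
  have e : ∀ (F : ℂ → ℂ) (k : ℕ) (ρ : ℂ), Pool.Agent.H514.Li.liT 1 F k ρ = liTerm F k ρ := by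
    intro F k ρ
    unfold Pool.Agent.H514.Li.liT liTerm
    have e2 : ((1 : ℝ) : ℂ) - 1 / 2 = 1 / 2 := by norm_num
    rw [e2]
  simp only [e] at h
  exact ⟨Λ, hΛ, fun Λ' h' => Pool.Agent.W169.HF.completed_unique h' hΛ, hfe, h⟩

end Pool.Agent.Results.MP_553913_nt.LiCoefficientsOfDerivatives
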