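import Pool.Agent.Hp428.TE.Fin
import Pool.Agent.Y19.QT.Fams

/-!
# The zeros of the derivatives of `L(E_d, s)`, for almost all quadratic twists

`E_d : y² = x³ + a d² x + b d³`, `d` squarefree (positive or negative), are the quadratic twists of
`E : y² = x³ + a x + b`, and `Λ_d` is the completed L-function of `E_d`.  We prove, without any hypothesis,
for all `E` with `j`-invariant `0` or `1728` and for all quadratic twists of `X₀(11)` and `X₀(14)`, and for
every elliptic curve over `ℚ` whose quadratic twists are modular: for all squarefree `|d| ≤ X` except
`O(X / (log X)^K)`, for all orders `n` and all heights `y` with `n ≥ K' (log log X + log (2 + |y|))`, every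
zero of the `n`-th derivative of `Λ_d` at the height `y` is simple and lies on the critical line, and the
next zero is at the distance `(π + O(ε)) / ℓ`, `ℓ = log X + log (2 + |y| + n)`; and there is a zero between
the heights `y` and `y + 5 / ℓ`. So after `K' log log X` derivations the zeros of bounded height are
critical, simple and equally spaced (for a single function and `n → ∞` this is a theorem of Ki).

Method: for almost all `d`, upper bounds of the quality of the Lindelöf hypothesis and lower bounds
(with a mollifier) with powers of logarithms in `Re s ≥ 1 + K' (log log X + log (2 + |Im s|)) / log X`;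
then the number of zeros in discs is so regular that after `n` derivations they are on the line, and the
derivative on the line is the sum of the contributions of two saddle points, of regular argument.
-/

set_option autoImplicit false

namespace Pool.Agent.Results.MP_553913_nt.TwistDerivatives

open Pool.Agent.Y19.QT (Fam TwistsModular)
open Pool.Agent.Hp428.TE (DerivativeZerosLaw zerosLaw_of)

theorem result : (∀ a b : ℤ, Fam a b → DerivativeZerosLaw a b) ∧
    ∀ a b : ℤ, 4 * a ^ 3 + 27 * b ^ 2 ≠ 0 → TwistsModular a b → DerivativeZerosLaw a b :=
  ⟨fun _ _ h => zerosLaw_of h.disc h.data.1 h.data.2, fun _ _ hab h =>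
    zerosLaw_of hab (Pool.Agent.Y812.QTN2.of_twistsModular hab h).1
      fun d hd => (Pool.Agent.Y812.QTN2.of_twistsModular hab h).2 d hd.ne_zero⟩

end Pool.Agent.Results.MP_553913_nt.TwistDerivatives
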