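import Pool.Agent.Hp428.TJ.Fin
import Pool.Agent.Y19.QT.Fams

/-!
# Jensen polynomials of `Λ(E_d, s)` for almost all quadratic twists

`E_d : y² = x³ + a d² x + b d³`, `d` squarefree (positive or negative), are the quadratic twists of
`E : y² = x³ + a x + b`, and `Λ_d` is the completed L-function of `E_d`, `Λ_d(2 - s) = ± Λ_d(s)`. The
Jensen polynomial of degree `D` and shift `n` of the derivatives at the central point is
`∑_{j ≤ D} binom(D, j) Λ_d^(n+j)(1) x^j`. By the criterion of Jensen and Pólya the Riemann hypothesis for
`Λ_d` holds if and only if for all degrees `D` all zeros of the Jensen polynomial of shift `n = 0` are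
purely imaginary (and then this holds for all shifts).

We prove, without any hypothesis, for all `E` with `j`-invariant `0` or `1728` and for all quadratic
twists of `X₀(11)` and `X₀(14)`, and for every elliptic curve over `ℚ` whose quadratic twists are
modular: for all squarefree `|d| ≤ X` except `O(X / (log X)^K)`, for all degrees `D` and all shifts
`n ≥ K' (log log X + log (2 + D))`, all zeros of the Jensen polynomial are purely imaginary. For a single
curve this was known for `n ≥ C log (2 + D)` with an unspecified constant `C` which depends on the curve
(starting file `MP_553913_nt.NewformJensen`, there even for the polynomials in the variable `(s - 1)²`).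

Method: by `MP_553913_nt.TwistDerivatives` the zeros of `Λ_d^(n)` up to the height `exp (n / K') / log X` are
on the critical line, and all zeros are in the critical strip, so all zeros of `Λ_d^(n)` are in a narrow
double sector; a function of order less than two with zeros in a double sector of opening `1 / √D` has
real rooted Jensen polynomials of degree `D` (theorem of Chasse, `Pool.Agent.H24R2.JP`, with a Hadamard
approximation by real polynomials, `Pool.Agent.Hp428.TJ`).
-/

set_option autoImplicit false

namespace Pool.Agent.Results.MP_553913_nt.TwistJensen

open Pool.Agent.Y19.QT (Fam TwistsModular)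
open Pool.Agent.Hp428.TJ (JensenLaw jensenLaw_of)

theorem result : (∀ a b : ℤ, Fam a b → JensenLaw a b) ∧
    ∀ a b : ℤ, 4 * a ^ 3 + 27 * b ^ 2 ≠ 0 → TwistsModular a b → JensenLaw a b :=
  ⟨fun _ _ h => jensenLaw_of h.disc h.data.1 h.data.2, fun _ _ hab h =>
    jensenLaw_of hab (Pool.Agent.Y812.QTN2.of_twistsModular hab h).1
      fun d hd => (Pool.Agent.Y812.QTN2.of_twistsModular hab h).2 d hd.ne_zero⟩

end Pool.Agent.Results.MP_553913_nt.TwistJensen
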