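import Pool.Agent.Hp428.TS.Fin
import Pool.Agent.Y19.QT.Fams

/-!
# Sums and differences of two shifts of `Λ(E_d, s)` for almost all quadratic twists

`E_d : y² = x³ + a d² x + b d³`, `d` squarefree (positive or negative), are the quadratic twists of
`E : y² = x³ + a x + b`. For a completed L-function `Λ` the Riemann hypothesis implies that all zeros of
`Λ(s + β) + Λ(s - β)` and of `Λ(s + β) - Λ(s - β)` are on the critical line for all `β > 0` (half the
sum tends to `Λ`, the difference divided by `2 β` tends to `Λ'`, as `β → 0`); for `β ≥ 1/2` this is known
unconditionally, since `Λ` has no zeros outside the critical strip.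

We prove, without any hypothesis, for all `E` with `j`-invariant `0` or `1728` and for all quadratic
twists of `X₀(11)` and `X₀(14)`, and for every elliptic curve over `ℚ` whose quadratic twists are
modular: for all squarefree `|d| ≤ X` except `O(X / (log X)^K)`, for all shifts `0 < β ≤ 1/2` and at all
heights `y` with `K' (log log X + log (2 + |y|)) ≤ β log X`, every zero `s` of
`Λ(E_d, s + β) ± Λ(E_d, s - β)` with `Im s = y` is simple and on the critical line `Re s = 1`, the next
zero above `s` is at the distance `(π + O(ε)) / ℓ`, `ℓ = log X + log (2 + |y|)`, and there is a zero with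
imaginary part in `[y, y + 5 / ℓ]`. So at heights `|y| ≤ (log X)^A` all zeros are on the line and form a
lattice as soon as `β` is `log log X` times larger than the mean distance of the zeros, and for a fixed
`β < 1/2` this is so up to heights `X^(c β)`.

Method: for almost all `d`, upper bounds of the quality of the Lindelöf hypothesis and lower bounds
(with a mollifier) with powers of logarithms in `Re s ≥ 1 + K' (log log X + log (2 + |Im s|)) / log X`
(modules `Pool.Agent.Hp428.TD`); then at every scale `r ≥ β` the function `Λ(E_d, ·)` looks like
`exp (ℓ z)` plus its reflection, and a local theorem on sums of two shifts (modules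
`Pool.Agent.Hp428.SS`, `Pool.Agent.Hp428.TS`) can be applied.
-/

set_option autoImplicit false

namespace Pool.Agent.Results.MP_553913_nt.TwistShiftSums

open Pool.Agent.Y19.QT (Fam TwistsModular)
open Pool.Agent.Hp428.TS (ShiftLaw shiftLaw_of)

theorem result : (∀ a b : ℤ, Fam a b → ShiftLaw a b) ∧
    ∀ a b : ℤ, 4 * a ^ 3 + 27 * b ^ 2 ≠ 0 → TwistsModular a b → ShiftLaw a b :=
  ⟨fun _ _ h => shiftLaw_of h.disc h.data.1 h.data.2, fun _ _ hab h =>
    shiftLaw_of hab (Pool.Agent.Y812.QTN2.of_twistsModular hab h).1
      fun d hd => (Pool.Agent.Y812.QTN2.of_twistsModular hab h).2 d hd.ne_zero⟩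

end Pool.Agent.Results.MP_553913_nt.TwistShiftSums
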